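import Pool.Agent.D0H8.NC.Main

/-!
# Which 2-connected signed graphs have the negative pair property

Signs are written additively (`0` positive, `1` negative).

* 3-connected graphs: the property holds if and only if no `Σ - v` and no `Σ - {e, f}` is balanced.
* Any finite graph, edges `e ≠ f`: `e` and `f` lie in a positive circle and in a negative circle if
  and only if some cell of the union of the circles through `e` and `f` is unbalanced; two edges are
  in the same cell if no 2-separation between `e` and `f` separates them.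
* 2-connected graphs: the property holds if and only if there is no positive circle with two edges
  `e ≠ f` all of whose cells are balanced.
-/

set_option autoImplicit false

namespace Pool.Agent.Results.MP_790549_co.Characterisation

open SimpleGraph Pool.Agent.Results.MP_790549_co.CommonNegativeCircles Pool.Agent.D0H8.NC

theorem zmod2_cases (x : ZMod 2) : x = 0 ∨ x = 1 := by
  revert x; decide

theorem result :
    -- 3-connected graphs
    (∀ (V : Type) (G : SimpleGraph V) (σ : Sym2 V → ZMod 2), ThreeConn G →
      (NegPair G σ ↔ (∀ v, ¬ BalancedOffVertex G σ v) ∧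
        ∀ e ∈ G.edgeSet, ∀ f ∈ G.edgeSet, ¬ BalancedOff G σ {e, f})) ∧
    -- pairs of edges in an arbitrary finite graph
    (∀ (V : Type) [Finite V] (G : SimpleGraph V) (σ : Sym2 V → ZMod 2) (e f : Sym2 V), e ≠ f →
      (((∃ (u : V) (w : G.Walk u u), w.IsCycle ∧ e ∈ w.edges ∧ f ∈ w.edges ∧ sgn σ w = 0) ∧
        ∃ (u : V) (w : G.Walk u u), w.IsCycle ∧ e ∈ w.edges ∧ f ∈ w.edges ∧ sgn σ w = 1) ↔
        ¬ CellsBalanced G σ e f)) ∧
    -- 2-connected graphs
    (∀ (V : Type) [Finite V] (G : SimpleGraph V) (σ : Sym2 V → ZMod 2), TwoConn G →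
      (NegPair G σ ↔ ∀ (u : V) (w : G.Walk u u), w.IsCycle → sgn σ w = 0 →
        ∀ e ∈ w.edges, ∀ f ∈ w.edges, e ≠ f → ¬ CellsBalanced G σ e f)) := by
  have hpair : ∀ (V : Type) [Finite V] (G : SimpleGraph V) (σ : Sym2 V → ZMod 2) (e f : Sym2 V),
      e ≠ f →
      (((∃ (u : V) (w : G.Walk u u), w.IsCycle ∧ e ∈ w.edges ∧ f ∈ w.edges ∧ sgn σ w = 0) ∧
        ∃ (u : V) (w : G.Walk u u), w.IsCycle ∧ e ∈ w.edges ∧ f ∈ w.edges ∧ sgn σ w = 1) ↔
        ¬ CellsBalanced G σ e f) := by
    intro V _ G σ e f hef
    constructor
    · rintro ⟨⟨u, w, h1, h2, h3, h4⟩, u', w', h1', h2', h3', h4'⟩ hc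
      have := same_of_cells hef hc w w' h1 h2 h3 h1' h2' h3'
      rw [h4, h4'] at this
      exact absurd this (by decide)
    · intro hc
      constructor
      · by_contra hcon
        push Not at hcon
        refine hc (cells_of_same hef (k := 1) ?_)
        intro u w h1 h2 h3
        exact (zmod2_cases _).resolve_left (hcon u w h1 h2 h3)
      · by_contra hcon
        push Not at hcon
        refine hc (cells_of_same hef (k := 0) ?_)
        intro u w h1 h2 h3
        exact (zmod2_cases _).resolve_right (hcon u w h1 h2 h3)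
  refine ⟨fun V G σ hG => three_main hG, hpair, ?_⟩
  intro V _ G σ hG
  constructor
  · intro hN u w hw h0 e he f hf hef hc
    obtain ⟨u', w', h1, h2, h3, h4⟩ := hN e (w.edges_subset_edgeSet he) f
      (w.edges_subset_edgeSet hf) hef
    have := same_of_cells hef hc w w' hw he hf h1 h2 h3
    rw [h0, h4] at this
    exact absurd this (by decide)
  · intro h e he f hf hef
    obtain ⟨u, w, h1, h2, h3⟩ := two_circle hG he hf hef
    rcases zmod2_cases (sgn σ w) with h0 | h0
    · exact ((hpair V G σ e f hef).2 (h u w h1 h0 e h2 f h3 hef)).2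
    · exact ⟨u, w, h1, h2, h3, h0⟩

end Pool.Agent.Results.MP_790549_co.Characterisation
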